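import Pool.Agent.MWLQ.StmtsA

/-!
# MWLQ row CPX: the `x`-copy in `w1` and `w4`
-/

set_option autoImplicit false

namespace Pool.Agent.MWLQ.H73X

open Pool.Agent.Helper14_MV
open Pool.Agent.Helper2_MV (RR)
open Pool.Agent.MWK (pre)
open Pool.Agent.MWGN (nn Tau gh)
open Pool.Agent.MWGQ (pw Z Gn E0 A0 P0)
open Pool.Agent.MWLE (pin sep con tl tll Sg t1 Fc Fb Fy Fx Fu Fz rz sf k0)
open Pool.Agent.MWLQ

/-- the projection -/
def fx (n m : ℕ) (w : List ℕ) : List ℕ := (w.flatMap (psi n 1)).filter (Fx m)

theorem fx_append (n m : ℕ) (a b : List ℕ) : fx n m (a ++ b) = fx n m a ++ fx n m b := by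
  unfold fx
  rw [List.flatMap_append, List.filter_append]

theorem fx_cons (n m c : ℕ) (b : List ℕ) : fx n m (c :: b) = fx n m [c] ++ fx n m b := by
  rw [← fx_append, List.singleton_append]

theorem fx_nil (n m : ℕ) : fx n m [] = [] := rfl

theorem fx_zero (n m : ℕ) : fx n m [0] = [0] := by
  simp [fx, psi, Fx]

theorem fx_one (n m : ℕ) : fx n m [1] = [] := by
  simp [fx, psi]

theorem fx_con_lo (n m k : ℕ) (h : k < m + 1) : fx n m [con k] = [] := by
  have h1 : con k ≠ 1 := by unfold con; omega
  have h2 : con k % 5 = 4 := by unfold con; omega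
  have h3 : Fx m (con k) = false := by
    unfold Fx
    simp only [decide_eq_false_iff_not]
    unfold con pin sep
    omega
  simp [fx, psi, h1, h2, h3]

theorem fx_con_hi (n m k : ℕ) (h : m + 1 ≤ k) :
    fx n m [con k] = List.replicate (n + 1) (con k) := by
  have h1 : con k ≠ 1 := by unfold con; omega
  have h2 : con k % 5 = 4 := by unfold con; omega
  have h3 : Fx m (con k) = true := by
    unfold Fx
    simp only [decide_eq_true_eq]
    unfold con pin sep
    omega
  simp [fx, psi, h1, h2, h3]

/-- an iterated letter which is deleted -/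
theorem fx_rep_nil (n m c : ℕ) (h : fx n m [c] = []) : ∀ j : ℕ,
    fx n m (List.replicate j c) = []
  | 0 => rfl
  | j + 1 => by
    rw [List.replicate_succ, fx_cons, h, fx_rep_nil n m c h j]
    rfl

/-- an iterated letter which becomes a power -/
theorem fx_rep (n m c r : ℕ) (h : fx n m [c] = List.replicate r c) : ∀ j : ℕ,
    fx n m (List.replicate j c) = List.replicate (r * j) c
  | 0 => rfl
  | j + 1 => by
    rw [List.replicate_succ, fx_cons, h, fx_rep n m c r h j, ← List.replicate_add]
    congr 1
    ring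

theorem fx_pin_lo (n m k : ℕ) (h : k < m + 2) : fx n m [pin k] = [] := by
  have h1 : pin k ≠ 1 := by unfold pin; omega
  have h2 : pin k % 5 ≠ 4 := by unfold pin; omega
  have h3 : Fx m (pin k) = false := by
    unfold Fx
    simp only [decide_eq_false_iff_not]
    unfold con pin sep
    omega
  simp [fx, psi, h1, h2, h3]

theorem fx_pin_hi (n m k : ℕ) (h : m + 2 ≤ k) : fx n m [pin k] = [pin k] := by
  have h1 : pin k ≠ 1 := by unfold pin; omega
  have h2 : pin k % 5 ≠ 4 := by unfold pin; omega
  have h3 : Fx m (pin k) = true := by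
    unfold Fx
    simp only [decide_eq_true_eq]
    unfold con pin sep
    omega
  simp [fx, psi, h1, h2, h3]

theorem fx_sep_lo (n m k : ℕ) (h : k < m + 2) : fx n m [sep k] = [] := by
  have h1 : sep k ≠ 1 := by unfold sep; omega
  have h2 : sep k % 5 ≠ 4 := by unfold sep; omega
  have h3 : Fx m (sep k) = false := by
    unfold Fx
    simp only [decide_eq_false_iff_not]
    unfold con pin sep
    omega
  simp [fx, psi, h1, h2, h3]

theorem fx_sep_hi (n m k : ℕ) (h : m + 2 ≤ k) : fx n m [sep k] = [sep k] := by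
  have h1 : sep k ≠ 1 := by unfold sep; omega
  have h2 : sep k % 5 ≠ 4 := by unfold sep; omega
  have h3 : Fx m (sep k) = true := by
    unfold Fx
    simp only [decide_eq_true_eq]
    unfold con pin sep
    omega
  simp [fx, psi, h1, h2, h3]

theorem fx_flatMap {α : Type} (n m : ℕ) (f : α → List ℕ) : ∀ l : List α,
    fx n m (l.flatMap f) = l.flatMap (fun a => fx n m (f a))
  | [] => rfl
  | a :: l => by
    rw [List.flatMap_cons, List.flatMap_cons, fx_append, fx_flatMap n m f l]

theorem flatMap_congr' {α : Type} {f g : α → List ℕ} : ∀ {l : List α},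
    (∀ a ∈ l, f a = g a) → l.flatMap f = l.flatMap g
  | [], _ => rfl
  | a :: l, h => by
    rw [List.flatMap_cons, List.flatMap_cons, h a (by simp),
      flatMap_congr' (fun b hb => h b (List.mem_cons_of_mem _ hb))]

theorem fx_cp_lo (n m : ℕ) : fx n m (cp n 1 m) = [] := by
  unfold cp
  rw [fx_flatMap, flatMap_congr' (g := fun _ => []) (fun i hi => ?_)]
  · simp
  · have hi' := List.mem_range.1 hi
    rw [fx_cons n m (pin (1 + i)), fx_pin_lo n m (1 + i) (by omega),
      fx_rep_nil n m _ (fx_con_lo n m (1 + i) (by omega))]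
    rfl

theorem fx_cp_hi (n m : ℕ) : fx n m (cp n (m + 2) m) = (List.range m).flatMap (fun i =>
    pin (i + (m + 2)) :: List.replicate ((n + 1) * (n + 1)) (con (i + 1 + (m + 1)))) := by
  unfold cp
  rw [fx_flatMap]
  refine flatMap_congr' (fun i hi => ?_)
  have e1 : m + 2 + i = i + (m + 2) := by omega
  have e2 : con (m + 2 + i) = con (i + 1 + (m + 1)) := by unfold con; omega
  rw [fx_cons n m (pin (m + 2 + i)), fx_pin_hi n m (m + 2 + i) (by omega),
    fx_rep n m _ _ (fx_con_hi n m (m + 2 + i) (by omega)), e2, e1]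
  rfl

theorem regroup (n : ℕ) (L C : ℕ → ℕ) : ∀ k : ℕ,
    List.replicate ((n + 1) * (n + 1)) (C 0) ++
    ((List.range k).flatMap (fun i => L i :: List.replicate ((n + 1) * (n + 1)) (C (i + 1))) ++
      [L k]) = lw4 n L C (k + 1)
  | 0 => by simp [lw4]
  | k + 1 => by
    have ih := regroup n L C k
    have e : lw4 n L C (k + 1 + 1) = lw4 n L C (k + 1) ++
        (List.replicate ((n + 1) * (n + 1)) (C (k + 1)) ++ [L (k + 1)]) := by
      unfold lw4
      rw [List.range_succ (n := k + 1), List.flatMap_append]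
      simp
    rw [e, ← ih, List.range_succ, List.flatMap_append]
    simp

theorem fx_tl (n m : ℕ) : ∀ σ : List ℕ, fx n m (tl σ) =
    tl (σ.filter (fun k => decide (m + 2 ≤ k)))
  | [] => rfl
  | k :: σ => by
    have ih := fx_tl n m σ
    unfold tl at ih ⊢
    rw [List.flatMap_cons, fx_append, ih]
    by_cases h : m + 2 ≤ k
    · rw [List.filter_cons_of_pos (by simpa using h), List.flatMap_cons, fx_cons,
        fx_sep_hi n m k h, fx_pin_hi n m k h]
      rfl
    · rw [List.filter_cons_of_neg (by simpa using h), fx_cons, fx_sep_lo n m k (by omega),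
        fx_pin_lo n m k (by omega)]
      rfl

/-- **CPX** -/
theorem cpx : CpxStmt := by
  intro n σ τ m hσ d
  show fx n m (wd n σ m d false) = _
  have hN0 : fx n m (N0 n m) = [] := by
    unfold N0
    rw [fx_cons n m 1, fx_one, fx_append, fx_rep_nil n m _ (fx_con_lo n m 0 (by omega)),
      fx_cons n m (pin 0), fx_pin_lo n m 0 (by omega), fx_cp_lo]
    rfl
  have hd : fx n m (if d then List.replicate (n + 1) 0 else [0]) =
      (if d then List.replicate (n + 1) 0 else [0]) := by
    cases d
    · exact fx_zero n m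
    · show fx n m (List.replicate (n + 1) 0) = List.replicate (n + 1) 0
      rw [fx_rep n m 0 1 (fx_zero n m), one_mul]
  have hNx : fx n m (Nx n m false) =
      lw4 n (fun i => pin (i + (m + 2))) (fun i => con (i + (m + 1))) (m + 1) := by
    rw [← regroup]
    unfold Nx
    have e0 : con (m + 1) = con (0 + (m + 1)) := by rw [Nat.zero_add]
    have e1 : pin (2 * m + 2) = pin (m + (m + 2)) := by unfold pin; omega
    simp only [Bool.false_eq_true, if_false, List.nil_append]
    rw [fx_append, fx_rep n m _ _ (fx_con_hi n m (m + 1) le_rfl),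
      fx_cons n m (pin (m + 1)), fx_pin_lo n m (m + 1) (by omega),
      fx_cons n m 1, fx_one, fx_append, fx_cp_hi, fx_pin_hi n m (2 * m + 2) (by omega), e0, e1]
    simp
  have htl : fx n m (tl σ) =
      tll (fun i => sep (i + (m + 2))) (fun i => pin (i + (m + 2))) τ := by
    rw [fx_tl, hσ.f3]
    unfold tl tll
    rw [List.flatMap_map]
  unfold wd wb
  rw [fx_append, fx_append, fx_append, fx_append, hN0, hd, hNx, htl, fx_zero]
  simp

end Pool.Agent.MWLQ.H73X
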